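import Mathlib
import Pool.Agent.Y811.RG.Fin

set_option autoImplicit false

/-!
# Irregular indices in a Galois orbit

Let `p ≥ 5` be prime and let `t` be an odd divisor of `p - 1`.  The even numbers `2m ≤ p - 3` with
`gcd (2m - 1, p - 1) = t` belong to the odd characters `ω^(2m-1)` of exact order `d = (p - 1) / t`
modulo `p`, a Galois orbit of `φ(d)` characters (for `t = 1` the orbit has the one further element
`ω^(-1)`).

Outline.  Let `g` be a primitive root modulo `p` and `P = ∑_{a < p/2} X^(ind a)`.
1. The norm `N = ∏_ζ P(ζ)` over the primitive `d`-th roots of unity is the determinant of the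
   multiplication by `P` on `ℤ[X] / Φ_d`; so `p^r` divides `N` if `P` has `r` zeros among the primitive
   `d`-th roots of unity modulo `p` (`Pool/Agent/TH487/RP/Alg.lean`).
2. `P(g^(2m-1)) = ∑_{a < p/2} a^(2m-1)` vanishes modulo `p` if `p` divides the numerator of `B_{2m}`
   (Voronoi's congruence).
3. `P(ζ) = ∑_{a < p/2} χ(a)` for an odd character `χ`; this is not zero by Dirichlet's theorem
   `L(1, χ) ≠ 0` (`Pool/Agent/Y811/RG/Half.lean`), and it is at most `√p log p` by Pólya-Vinogradov.
-/

namespace Pool.Agent.Results.MP_a3a416_nt.GaloisOrbits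

open Pool.Agent.Y811.RG

/-- Let `p ≥ 5` be a prime and `t` an odd divisor of `p - 1`. Let `n` be the number of the
`m ≤ (p - 3) / 2` with `gcd (2m - 1, p - 1) = t` and `r` the number of those `m` among them for which
`p` divides the numerator of the Bernoulli number `B_{2m}`. Then `n = φ((p - 1) / t)`, less one if
`t = 1`, and `r < n`, and `r ≤ φ((p - 1) / t) (1 / 2 + log log p / log p)`. -/
theorem result (p : ℕ) (hp : p.Prime) (hp5 : 5 ≤ p) (t : ℕ) (ht : Odd t) (htp : t ∣ p - 1)
    (n r : ℕ)
    (hn : n = ((Finset.Icc 1 ((p - 3) / 2)).filter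
      (fun m : ℕ => Nat.gcd (2 * m - 1) (p - 1) = t)).card)
    (hr : r = ((Finset.Icc 1 ((p - 3) / 2)).filter
      (fun m : ℕ => Nat.gcd (2 * m - 1) (p - 1) = t ∧ (p : ℤ) ∣ (bernoulli (2 * m)).num)).card) :
    n + (if t = 1 then 1 else 0) = Nat.totient ((p - 1) / t) ∧ r < n ∧
      (r : ℝ) ≤ Nat.totient ((p - 1) / t) * (1 / 2 + Real.log (Real.log p) / Real.log p) := by
  obtain ⟨d, hd⟩ := htp
  have ht0 : 0 < t := ht.pos
  have hdd : (p - 1) / t = d := by
    rw [hd]
    exact Nat.mul_div_cancel_left d ht0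
  have hn' : n = (orb p t).card := hn
  have hr' : r = (irr p t).card := by
    rw [hr, ← Finset.filter_filter]
    rfl
  have hpo : Odd p := by
    rcases hp.eq_two_or_odd' with h | h
    · omega
    · exact h
  rw [hdd]
  refine ⟨?_, ?_, ?_⟩
  · rw [hn']
    exact card_orb hp5 hpo ht hd.symm
  · rw [hn', hr']
    exact irr_lt hp hp5 hd.symm ht
  · have h1 := irr_bound hp hp5 hd.symm ht
    rw [← hr'] at h1
    have hp0 : (0 : ℝ) < p := by exact_mod_cast hp.pos
    have hp3 : Real.exp 1 < p := by
      have h2 : (5 : ℝ) ≤ p := by exact_mod_cast hp5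
      have := Real.exp_one_lt_d9
      linarith
    have hl : 1 < Real.log p := by
      rw [Real.lt_log_iff_exp_lt hp0]
      exact hp3
    have hl0 : 0 < Real.log p := by linarith
    have hs : 0 < Real.sqrt p := Real.sqrt_pos.2 hp0
    have h2 := Real.log_le_log (by positivity) h1
    rw [Real.log_pow, Real.log_pow, Real.log_mul hs.ne' hl0.ne', Real.log_sqrt hp0.le] at h2
    have h3 : (Nat.totient d : ℝ) * (1 / 2 + Real.log (Real.log p) / Real.log p) =
        (Nat.totient d * (Real.log p / 2 + Real.log (Real.log p))) / Real.log p := by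
      field_simp
    rw [h3, le_div_iff₀ hl0]
    exact h2

end Pool.Agent.Results.MP_a3a416_nt.GaloisOrbits
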