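import Mathlib
import Pool.Agent.Y374.RP.Star2

/-!
# Sums of two regular indices of almost equal size, for every prime

Call `i`, `1 ≤ i ≤ (p - 3) / 2`, a regular index of the prime `p` if `p` does not divide the
numerator of `B_{2i}`.  For every prime `p` and every `N`, `2 ≤ N ≤ (p - 3) / 2`, let `r` be the number
of `i`, `V < i < N - V`, such that `i` and `N - i` are both regular indices.  Then
`2 (N - V) ≤ (2 r + 1) (4 V + 3 r + 1)`.  So (`V = 0`) `N` is a sum of two regular indices in at least
about `√(N / 3)` ways, (`V < N / 3`) it is a sum of two regular indices which are both at least `N / 3`,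
and in general `r ≥ c min (√N, N / V)`.

Outline.  Let `λ(z)` be the coefficient of `(e^t + z) / (e^t - z)` at `t ^ (2N - 2)` and let
`F_a = (e^{at} + 1) / (e^{at} - 1)`, over the algebraic closure of `F_p`.
1. If `N` is not a sum of two regular indices (`0` allowed) then the coefficients at `t ^ (2N - 2)` of
   all products `F_a F_b`, `p` not dividing `a b`, vanish. By induction on `m`, for all `m` prime to `p`
   and all `c` prime to `m`, `∑ F_1(z ^ c) λ(z) = 0` over the `m`-th roots of unity `z ≠ 1`
   (`Pool/Agent/Y374/RP/MainTwo.lean`; residues `a` divisible by `p` are replaced by `m - a`).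
2. So for `m = 3 ^ n` and a faithful character `χ` of the group of units modulo `3 ^ n` one of the two
   sums `∑ χ(x) F_1(ζ ^ x)`, `∑ χ(x)⁻¹ λ(ζ ^ x)` is zero.
3. Both are not zero for large `n` (Washington's theorem on `B_{k,χ}`, with Sinnott's algebraic proof,
   `Pool/Agent/Y374/RP/Sin4.lean`): let `f` be a rational function over `F_p` with its only pole at `1`,
   and odd for `z ↦ 1/z`. If `∑ χ(x) f(ζ ^ x) = 0` then the same is true for the conjugates of `χ`
   over the field with `q = p ^ 2` elements, so, if `3 ^ e` is the exact power of `3` in `q - 1`,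
   `∑ (-τ)^u f(w γ^u) = 0`, `u < 3 ^ e`, `γ` and `-τ` of order `3 ^ e`, for `3 ^ (n - e)` values of `w`;
   but this rational function of `w` has a pole at `1`.
4. The number of the representations and their place. Let `w_i = c_i c_{N-i}`, `c_i` the coefficient of
   `F_1` at `t ^ (2i - 1)`. The identity `F_a F_b - 1 = F_{a+b} (F_a + F_b)`, up to signs, gives
   `∑ w_i (X + 1) X^{2i} = ∑ w_i (X (X + 1)^{2i} + X^{2(N-i)} (X + 1)^{2i})`, and an estimate for the order
   at `-1` of a sum of a few monomials and a few products `X^a (X + 1)^b` (annihilating operators of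
   Euler type, `ZE2.lean`, `ZE3.lean`) shows that the `w_i` which are not zero, `V < i < N - V`, are not
   too few (`Star.lean`, `Star2.lean`).
-/

set_option autoImplicit false

namespace Pool.Agent.Results.MP_a3a416_nt.BalancedRegularSums

open Finset Pool.Agent.H332R2 Pool.Agent.TH350.SumReg

/-- Let `p` be a prime, `2 ≤ N ≤ (p - 3) / 2` and `2 V < N`. Then the number `r` of the `i`,
`V < i < N - V`, such that `p` divides neither the numerator of `B_{2i}` nor the numerator of
`B_{2(N-i)}` satisfies `2 (N - V) ≤ (2 r + 1) (4 V + 3 r + 1)`. -/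
theorem result (p : ℕ) (hp : p.Prime) (N : ℕ) (hN2 : 2 ≤ N) (hN : 2 * N + 3 ≤ p) (V : ℕ)
    (hV : 2 * V < N) (r : ℕ)
    (hr : r = ((Finset.Ioo V (N - V)).filter (fun i : ℕ => ¬ ((p : ℤ) ∣ (bernoulli (2 * i)).num) ∧
      ¬ ((p : ℤ) ∣ (bernoulli (2 * (N - i))).num))).card) :
    2 * (N - V) ≤ (2 * r + 1) * (4 * V + 3 * r + 1) := by
  have : Fact p.Prime := ⟨hp⟩
  have hccb : ∀ m, 2 * m + 3 ≤ p → (cc p (2 * m) = 0 ↔ (p : ℤ) ∣ (bernoulli (2 * m)).num) :=
    fun m hm => cc_eq_zero_iff (by omega) (by omega)
  have h1 := Pool.Agent.Y374.RP.star p N V hN hN2 hV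
  have h2 : Pool.Agent.Y374.RP.JJ p N V = (Finset.Ioo V (N - V)).filter
      (fun i : ℕ => ¬ ((p : ℤ) ∣ (bernoulli (2 * i)).num) ∧
      ¬ ((p : ℤ) ∣ (bernoulli (2 * (N - i))).num)) := by
    unfold Pool.Agent.Y374.RP.JJ
    refine filter_congr fun i hi => ?_
    rw [mem_Ioo] at hi
    rw [← hccb i (by omega), ← hccb (N - i) (by omega)]
    unfold ww
    rw [mul_ne_zero_iff]
  rw [h2, ← hr] at h1
  exact h1

end Pool.Agent.Results.MP_a3a416_nt.BalancedRegularSums
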