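import Mathlib
import Pool.Agent.Y374.RP.Star2
import Pool.Agent.Y374.RP.Cnt

/-!
# Sums of `h` regular indices, for every prime and every `h`, with explicit constants

Call `m`, `0 ≤ m ≤ (p - 3) / 2`, a regular index of the prime `p` if `p` does not divide the
numerator of `B_{2m}`; the index `0` is regular. A prime is regular if all its indices are.

For every prime `p`, every `h ≥ 2` and every `N ≤ (p - 3) / 2` the number `N` is a sum of `h` regular
indices in at least `N ^ ((3 h - 4) / 4) / 2 ^ (h ^ 2 / 2)` ways, and among the numbers `1, …, N` at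
least `N ^ (3 / 4) / 2` are regular.

Proof. The number `r` of the `i`, `0 < i < N`, such that `i` and `N - i` are regular satisfies
`2 N ≤ (2 r + 1) (3 r + 1)` for `2 ≤ N ≤ (p - 3) / 2` (`Pool.Agent.Y374.RP.star`), so `N ≤ 6 r ^ 2`.
Summation over `N` gives the number of the regular indices up to `M`, and the induction over `h` takes
a regular index `m ≤ N / 2` and the representations of `N - m` (`Pool/Agent/Y374/RP/Cnt.lean`).
-/

set_option autoImplicit false

open Finset

namespace Pool.Agent.Results.MP_a3a416_nt.EveryPrimeSums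

open Pool.Agent.Y374.RP Pool.Agent.TH350.SumReg Pool.Agent.H332R2

/-- Let `p` be a prime. (1) If `2 M + 3 ≤ p` then the number `s` of the `m`, `1 ≤ m ≤ M`, such that
`p` does not divide the numerator of `B_{2m}` satisfies `M ^ 3 ≤ 16 s ^ 4`. (2) If `h ≥ 2` and
`2 N + 3 ≤ p` then the number `t` of the `h`-tuples of natural numbers `x i` with sum `N` such that
`p` divides none of the numerators of the Bernoulli numbers `B_{2 (x i)}` satisfies
`N ^ (3 h - 4) ≤ 4 ^ (h ^ 2) t ^ 4`. -/
theorem result (p : ℕ) (hp : p.Prime) :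
    (∀ M : ℕ, 2 * M + 3 ≤ p →
      M ^ 3 ≤ 16 * ((Finset.Icc 1 M).filter
        (fun m : ℕ => ¬ ((p : ℤ) ∣ (bernoulli (2 * m)).num))).card ^ 4) ∧
    (∀ h N : ℕ, 2 ≤ h → 2 * N + 3 ≤ p →
      N ^ (3 * h - 4) ≤ 4 ^ (h ^ 2) * ((Finset.Nat.antidiagonalTuple h N).filter
        (fun x : Fin h → ℕ => ∀ i, ¬ ((p : ℤ) ∣ (bernoulli (2 * x i)).num))).card ^ 4) := by
  classical
  have : Fact p.Prime := ⟨hp⟩
  have hccb : ∀ m, 2 * m + 3 ≤ p → (cc p (2 * m) = 0 ↔ (p : ℤ) ∣ (bernoulli (2 * m)).num) :=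
    fun m hm => cc_eq_zero_iff (by omega) (by omega)
  have H : ∀ L, 2 * L + 3 ≤ p →
      Cnt.Hyp (fun m : ℕ => ¬ ((p : ℤ) ∣ (bernoulli (2 * m)).num)) L := by
    intro L hL N h2 hN
    have h1 := star p N 0 (by omega) h2 (by omega)
    have h3 : (JJ p N 0).card ≤ Cnt.rr (fun m : ℕ => ¬ ((p : ℤ) ∣ (bernoulli (2 * m)).num)) N := by
      unfold Cnt.rr
      refine card_le_card fun i hi => ?_
      rw [mem_JJ] at hi
      obtain ⟨⟨hi1, hi2⟩, hi3⟩ := hi
      unfold ww at hi3
      rw [mul_ne_zero_iff] at hi3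
      rw [mem_filter, mem_Ioo]
      exact ⟨⟨hi1, by omega⟩, fun h => hi3.1 ((hccb i (by omega)).2 h),
        fun h => hi3.2 ((hccb (N - i) (by omega)).2 h)⟩
    calc 2 * N = 2 * (N - 0) := by omega
      _ ≤ _ := h1
      _ ≤ _ := Nat.mul_le_mul (by omega) (by omega)
  have h1 : ∀ L, 2 * L + 3 ≤ p → 1 ≤ L → ¬ ((p : ℤ) ∣ (bernoulli (2 * 1)).num) := by
    intro L hL hL1 h
    have e : (bernoulli (2 * 1)).num = 1 := by
      rw [mul_one, bernoulli_two]
      norm_num
    rw [e] at h
    have := Int.le_of_dvd (by norm_num) h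
    omega
  refine ⟨fun M hM => ?_, fun h N hh hN => ?_⟩
  · have := Cnt.count (H M hM) (h1 M hM) le_rfl
    unfold Cnt.SS at this
    convert this
  · refine (Cnt.T_all (H N hN) (h1 N hN) h hh N le_rfl).trans (Nat.mul_le_mul_left _
      (Nat.pow_le_pow_left (card_le_card fun x hx => ?_) 4))
    unfold Cnt.T at hx
    rw [mem_filter] at hx ⊢
    refine ⟨hx.1, fun i => ?_⟩
    rcases hx.2 i with h0 | h0
    · rw [h0, mul_zero, bernoulli_zero]
      intro hd
      have := Int.le_of_dvd (by norm_num) hd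
      have := hp.two_le
      norm_num at *
      omega
    · exact h0

end Pool.Agent.Results.MP_a3a416_nt.EveryPrimeSums
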