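import Pool.Agent.Y935.RP.Fin
import Pool.Agent.Y935.RP.Amp

/-!
# The Poisson law for the index of irregularity, for almost every amplitude
-/

set_option autoImplicit false

open MeasureTheory Finset

namespace Pool.Agent.Results.MP_a3a416_nt.PoissonLawAmplitudes

/-- The integer `⌈β (2k+1)! |B_{2k}|⌉`. For `β = 1` it is the positive integer `(2k+1)! |B_{2k}|`. -/
noncomputable def W (β : ℝ) (k : ℕ) : ℤ :=
  ⌈β * (((2 * k + 1).factorial : ℝ) * |((bernoulli (2 * k) : ℚ) : ℝ)|)⌉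

/-- The number of indices `1 ≤ k ≤ (p-3)/2` with `s p < k ≤ t p` for which `p` divides
`⌈β (2k+1)! |B_{2k}|⌉`. -/
noncomputable def hits (β : ℝ) (p : ℕ) (s t : ℚ) : ℕ :=
  ((Icc 1 ((p - 3) / 2)).filter
    (fun k : ℕ => s * p < k ∧ (k : ℚ) ≤ t * p ∧ (p : ℤ) ∣ W β k)).card

/-- lower ends of the windows -/
noncomputable def lo {m : ℕ} (s : Fin m → ℚ) (n : ℕ) (j : Fin m) : ℕ := ⌊s j * n⌋₊ + 1

/-- upper ends of the windows -/
noncomputable def hi {m : ℕ} (t : Fin m → ℚ) (n : ℕ) (j : Fin m) : ℕ :=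
  min ⌊t j * n⌋₊ ((n - 3) / 2) + 1

open Pool.Agent.Y935.RP

lemma hits_eq {m : ℕ} {s t : Fin m → ℚ} (h : ∀ j, 0 ≤ s j ∧ s j ≤ t j ∧ t j ≤ 1 / 2) (β : ℝ)
    (n : ℕ) (j : Fin m) : hits β n (s j) (t j) =
      ((Ico (lo s n j) (hi t n j)).filter (fun k => (n : ℤ) ∣ ⌈β * am k⌉)).card := by
  obtain ⟨h0, h1, -⟩ := h j
  have hs : 0 ≤ s j * n := mul_nonneg h0 (Nat.cast_nonneg n)
  have ht : 0 ≤ t j * n := mul_nonneg (h0.trans h1) (Nat.cast_nonneg n)
  unfold hits
  congr 1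
  ext k
  simp only [mem_filter, mem_Icc, mem_Ico, lo, hi]
  have e1 : ((n : ℤ) ∣ W β k) ↔ ((n : ℤ) ∣ ⌈β * am k⌉) := by
    unfold W am; exact Iff.rfl
  rw [e1]
  constructor
  · rintro ⟨⟨_, h3⟩, h4, h5, h6⟩
    refine ⟨⟨?_, ?_⟩, h6⟩
    · have := (Nat.floor_lt hs).2 h4
      omega
    · have := (Nat.le_floor_iff ht).2 h5
      have := le_min this h3
      omega
  · rintro ⟨⟨h3, h4⟩, h6⟩
    have h5 : k ≤ min ⌊t j * n⌋₊ ((n - 3) / 2) := by omega
    have h7 := le_min_iff.1 h5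
    refine ⟨⟨by omega, h7.2⟩, (Nat.floor_lt hs).1 (by omega), (Nat.le_floor_iff ht).1 h7.1, h6⟩

lemma win_dis {m : ℕ} {s t : Fin m → ℚ} (h : ∀ j, 0 ≤ s j ∧ s j ≤ t j ∧ t j ≤ 1 / 2)
    (hd : ∀ i j, i ≠ j → t i ≤ s j ∨ t j ≤ s i) (n : ℕ) : Dis (lo s n) (hi t n) := by
  intro i j hij k hk
  obtain ⟨⟨h1, h2⟩, h3, h4⟩ := hk
  have aux : ∀ i j : Fin m, t i ≤ s j → k < hi t n i → lo s n j ≤ k → False := by
    intro i j hts h2 h3
    have hn : (0 : ℚ) ≤ n := Nat.cast_nonneg n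
    have e1 : k ≤ ⌊t i * n⌋₊ := by
      have : k ≤ min ⌊t i * n⌋₊ ((n - 3) / 2) := by unfold hi at h2; omega
      exact (le_min_iff.1 this).1
    have e2 : ⌊t i * n⌋₊ ≤ ⌊s j * n⌋₊ := Nat.floor_mono (mul_le_mul_of_nonneg_right hts hn)
    unfold lo at h3
    omega
  rcases hd i j hij with hts | hts
  · exact aux i j hts h2 h3
  · exact aux j i hts h4 h1

lemma win_hi {m : ℕ} {t : Fin m → ℚ} (n : ℕ) (hn : n.Prime) (j : Fin m) : hi t n j ≤ n := by
  have h1 : hi t n j ≤ (n - 3) / 2 + 1 := by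
    unfold hi
    have := min_le_right ⌊t j * n⌋₊ ((n - 3) / 2)
    omega
  have := hn.two_le
  omega

lemma win_len {m : ℕ} {s t : Fin m → ℚ} (h : ∀ j, 0 ≤ s j ∧ s j ≤ t j ∧ t j ≤ 1 / 2)
    (n : ℕ) (j : Fin m) :
    |((hi t n j - lo s n j : ℕ) : ℝ) - ((t j : ℝ) - s j) * n| ≤ 3 := by
  obtain ⟨h0, h1, h2⟩ := h j
  have hs : 0 ≤ s j * n := mul_nonneg h0 (Nat.cast_nonneg n)
  have ht : 0 ≤ t j * n := mul_nonneg (h0.trans h1) (Nat.cast_nonneg n)
  have hst : s j * n ≤ t j * n := mul_le_mul_of_nonneg_right h1 (Nat.cast_nonneg n)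
  have key : |((hi t n j - lo s n j : ℕ) : ℚ) - (t j - s j) * n| ≤ 3 := by
    have a1 := Nat.floor_le hs
    have a2 := Nat.lt_floor_add_one (s j * n)
    have a3 := Nat.floor_le ht
    have a4 := Nat.lt_floor_add_one (t j * n)
    have a5 : t j * n ≤ (((n - 3) / 2 : ℕ) : ℚ) + 2 := by
      have b1 : n ≤ 2 * ((n - 3) / 2) + 4 := by omega
      have b2 : (n : ℚ) ≤ 2 * (((n - 3) / 2 : ℕ) : ℚ) + 4 := by exact_mod_cast b1
      have b3 : t j * n ≤ 1 / 2 * n := mul_le_mul_of_nonneg_right h2 (Nat.cast_nonneg n)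
      linarith
    have a6 : t j * n ≤ ((min ⌊t j * n⌋₊ ((n - 3) / 2) : ℕ) : ℚ) + 2 := by
      rcases min_choice ⌊t j * n⌋₊ ((n - 3) / 2) with hm | hm
      · rw [hm]; linarith
      · rw [hm]; exact a5
    have a7 : ((min ⌊t j * n⌋₊ ((n - 3) / 2) : ℕ) : ℚ) ≤ t j * n := by
      refine le_trans ?_ a3
      exact_mod_cast min_le_left _ _
    have e1 : hi t n j - lo s n j = min ⌊t j * n⌋₊ ((n - 3) / 2) - ⌊s j * n⌋₊ := by
      unfold hi lo; omega
    rw [e1, sub_mul]
    rcases le_total ⌊s j * n⌋₊ (min ⌊t j * n⌋₊ ((n - 3) / 2)) with hle | hle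
    · rw [Nat.cast_sub hle, abs_le]
      constructor <;> linarith
    · rw [Nat.sub_eq_zero_of_le hle]
      have : ((min ⌊t j * n⌋₊ ((n - 3) / 2) : ℕ) : ℚ) ≤ (⌊s j * n⌋₊ : ℚ) := by exact_mod_cast hle
      push_cast
      rw [abs_le]
      push_cast at this a6
      constructor <;> linarith
  have := (Rat.cast_le (K := ℝ)).2 key
  push_cast at this
  exact this

/-- **Poisson law for almost every amplitude.** -/
theorem result :
    (∀ k p : ℕ, p.Prime → 2 * k + 3 ≤ p →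
      (0 < W 1 k ∧ ((p : ℤ) ∣ W 1 k ↔ (p : ℤ) ∣ (bernoulli (2 * k)).num))) ∧
    ∀ᵐ β : ℝ, 0 < β → ∀ (q c m : ℕ) (s t : Fin m → ℚ) (r : Fin m → ℕ),
      (∀ j, 0 ≤ s j ∧ s j ≤ t j ∧ t j ≤ 1 / 2) → (∀ i j, i ≠ j → t i ≤ s j ∨ t j ≤ s i) →
      ∃ B : ℝ, ∀ N : ℕ,
        |(((range (N + 1)).filter (fun p => p.Prime ∧ p ≡ c [MOD q] ∧
              ∀ j, hits β p (s j) (t j) = r j)).card : ℝ) -
          (∏ j, Real.exp (-((t j : ℝ) - s j)) * ((t j : ℝ) - s j) ^ (r j) / ((r j).factorial : ℝ)) *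
            ((range (N + 1)).filter (fun p => p.Prime ∧ p ≡ c [MOD q])).card| ≤
          B * (Real.sqrt (N + 1) * (1 + Real.log (N + 1)) ^ 2) := by
  constructor
  · intro k p hp hpk
    have e1 : W 1 k = (amN k : ℤ) := by
      unfold W
      rw [one_mul]
      have := am_eq k
      unfold am at this
      rw [this]
      simp
    rw [e1]
    refine ⟨by exact_mod_cast amN_pos k, ?_⟩
    rw [Int.natCast_dvd_natCast]
    exact dvd_amN hp (by omega)
  · -- the law for fixed data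
    have key : ∀ (q c m : ℕ) (s t : Fin m → ℚ) (r : Fin m → ℕ), ∀ᵐ β : ℝ, 0 < β →
      (∀ j, 0 ≤ s j ∧ s j ≤ t j ∧ t j ≤ 1 / 2) → (∀ i j, i ≠ j → t i ≤ s j ∨ t j ≤ s i) →
      ∃ B : ℝ, ∀ N : ℕ,
        |(((range (N + 1)).filter (fun p => p.Prime ∧ p ≡ c [MOD q] ∧
              ∀ j, hits β p (s j) (t j) = r j)).card : ℝ) -
          (∏ j, Real.exp (-((t j : ℝ) - s j)) * ((t j : ℝ) - s j) ^ (r j) / ((r j).factorial : ℝ)) *
            ((range (N + 1)).filter (fun p => p.Prime ∧ p ≡ c [MOD q])).card| ≤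
          B * (Real.sqrt (N + 1) * (1 + Real.log (N + 1)) ^ 2) := by
      intro q c m s t r
      by_cases h : ∀ j, 0 ≤ s j ∧ s j ≤ t j ∧ t j ≤ 1 / 2
      · by_cases hd : ∀ i j, i ≠ j → t i ≤ s j ∨ t j ≤ s i
        · have h1 := ae_pos (fun w => law (lo s) (hi t) r one_le_am (c := 5) (by norm_num) am_growth
            (win_dis h hd) (fun n => n.Prime ∧ n ≡ c [MOD q]) (fun n hn => hn.1)
            (lam := fun j => (t j : ℝ) - s j)
            (fun j => by
              have : (s j : ℝ) ≤ t j := by exact_mod_cast (h j).2.1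
              linarith)
            (fun j => by
              have e1 : (t j : ℝ) ≤ 1 / 2 := by
                have := (Rat.cast_le (K := ℝ)).2 (h j).2.2
                push_cast at this
                exact this
              have e2 : (0 : ℝ) ≤ s j := by exact_mod_cast (h j).1
              show (t j : ℝ) - s j ≤ 1
              linarith)
            (C0 := 3) (by norm_num) (fun n hn j => win_hi n hn j)
            (fun n _ j => win_len h n j) w)
          filter_upwards [h1] with β hβ hβ0 _ _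
          obtain ⟨B, hB0, hB⟩ := hβ hβ0
          refine ⟨2 * B * (1 + Real.log 2) ^ 2, fun N => ?_⟩
          have h2 := hB (N + 1)
          have e1 : ∑ n ∈ range (N + 1), (if n.Prime ∧ n ≡ c [MOD q] then E (lo s) (hi t) r am n β
              else 0) = (((range (N + 1)).filter (fun p => p.Prime ∧ p ≡ c [MOD q] ∧
              ∀ j, hits β p (s j) (t j) = r j)).card : ℝ) := by
            rw [Finset.card_filter]
            push_cast
            refine Finset.sum_congr rfl fun n _ => ?_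
            unfold E
            simp only [hits_eq h β n]
            by_cases g1 : n.Prime ∧ n ≡ c [MOD q]
            · rw [if_pos g1]
              by_cases g2 : ∀ j, ((Ico (lo s n j) (hi t n j)).filter
                  (fun k => (n : ℤ) ∣ ⌈β * am k⌉)).card = r j
              · rw [if_pos g2, if_pos ⟨g1.1, g1.2, g2⟩]
              · rw [if_neg g2, if_neg (fun hh => g2 hh.2.2)]
            · rw [if_neg g1, if_neg (fun hh => g1 ⟨hh.1, hh.2.1⟩)]
          rw [e1] at h2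
          unfold poi at h2
          refine h2.trans ?_
          have hN : (0 : ℝ) ≤ N := Nat.cast_nonneg N
          have hl2 : 0 ≤ Real.log 2 := Real.log_nonneg (by norm_num)
          have hl : 0 ≤ Real.log ((N : ℝ) + 1) := Real.log_nonneg (by linarith)
          have e3 : (((N + 1 : ℕ) : ℝ) + 1) ≤ 2 * ((N : ℝ) + 1) := by push_cast; linarith
          have e4 : Real.sqrt (((N + 1 : ℕ) : ℝ) + 1) ≤ 2 * Real.sqrt ((N : ℝ) + 1) := by
            calc Real.sqrt (((N + 1 : ℕ) : ℝ) + 1) ≤ Real.sqrt (2 ^ 2 * ((N : ℝ) + 1)) :=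
                  Real.sqrt_le_sqrt (by linarith)
              _ = 2 * Real.sqrt ((N : ℝ) + 1) := by
                  rw [Real.sqrt_mul (by norm_num), Real.sqrt_sq (by norm_num)]
          have e5 : Real.log (((N + 1 : ℕ) : ℝ) + 1) ≤ Real.log 2 + Real.log ((N : ℝ) + 1) := by
            rw [← Real.log_mul (by norm_num) (by linarith)]
            exact Real.log_le_log (by positivity) e3
          have e6 : 0 ≤ Real.log (((N + 1 : ℕ) : ℝ) + 1) := Real.log_nonneg (by
            push_cast; linarith)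
          have e7 : 1 + Real.log (((N + 1 : ℕ) : ℝ) + 1) ≤
              (1 + Real.log 2) * (1 + Real.log ((N : ℝ) + 1)) := by nlinarith
          calc B * (Real.sqrt (((N + 1 : ℕ) : ℝ) + 1) * (1 + Real.log (((N + 1 : ℕ) : ℝ) + 1)) ^ 2)
              ≤ B * ((2 * Real.sqrt ((N : ℝ) + 1)) *
                ((1 + Real.log 2) * (1 + Real.log ((N : ℝ) + 1))) ^ 2) := by gcongr
            _ = _ := by ring
        · filter_upwards with β _ _ hd'
          exact absurd hd' hd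
      · filter_upwards with β _ h' _
        exact absurd h' h
    have key2 : ∀ᵐ β : ℝ, ∀ (q c m : ℕ) (s t : Fin m → ℚ) (r : Fin m → ℕ), 0 < β →
      (∀ j, 0 ≤ s j ∧ s j ≤ t j ∧ t j ≤ 1 / 2) → (∀ i j, i ≠ j → t i ≤ s j ∨ t j ≤ s i) →
      ∃ B : ℝ, ∀ N : ℕ,
        |(((range (N + 1)).filter (fun p => p.Prime ∧ p ≡ c [MOD q] ∧
              ∀ j, hits β p (s j) (t j) = r j)).card : ℝ) -
          (∏ j, Real.exp (-((t j : ℝ) - s j)) * ((t j : ℝ) - s j) ^ (r j) / ((r j).factorial : ℝ)) *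
            ((range (N + 1)).filter (fun p => p.Prime ∧ p ≡ c [MOD q])).card| ≤
          B * (Real.sqrt (N + 1) * (1 + Real.log (N + 1)) ^ 2) := by
      exact ae_all_iff.2 fun q => ae_all_iff.2 fun c => ae_all_iff.2 fun m => ae_all_iff.2 fun s =>
        ae_all_iff.2 fun t => ae_all_iff.2 fun r => key q c m s t r
    filter_upwards [key2] with β hβ hβ0 q c m s t r h hd
    exact hβ q c m s t r hβ0 h hd

end Pool.Agent.Results.MP_a3a416_nt.PoissonLawAmplitudes
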